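import Pool.Agent.Work.MP_a392d0_lc.Assembly
import Pool.Agent.Work.MP_a392d0_lc.EncInj
import Pool.Agent.Work.MP_a392d0_lc_h18.RC
import Pool.Agent.Work.MP_a392d0_lc_h18.FC
import Pool.Agent.Work.MP_a392d0_lc_helper33.OF2
import Pool.Agent.Work.MP_a392d0_lc_h31.FS
import Pool.Agent.Work.MP_a392d0_lc_h82.M1
import Pool.Agent.Work.MP_a392d0_lc_helper98.M5

/-!
Duration-aware pinwheel scheduling is hard for `PSPACE`.

The definitions of the scheduling problem, of the encoding of its instances as strings, of `PSPACE`
and of hardness are in `Pool/Agent/Work/MP_a392d0_lc/Defs.lean`; that of polynomial time is in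
`Pool/Agent/Work/TMLib/Classes.lean`.
-/

namespace Pool.Agent.Results.MP_a392d0_lc.PSPACEHard

open Pool.Agent.Work.MP_a392d0_lc

/-- The encoding of instances by strings is injective, and deciding whether an instance (with
positive frequencies and durations) of duration-aware pinwheel scheduling is feasible is hard for
`PSPACE` under polynomial-time many-one reductions. -/
theorem result :
    Function.Injective encInst ∧ PSPACEHard encInst Positive Feasible :=
  ⟨encInst_injective,
    main_of stmt_M1 RC.stmt_RC OF.stmt_OF OF.stmt_OC stmt_FS FC.stmt_FC M5⟩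

end Pool.Agent.Results.MP_a392d0_lc.PSPACEHard
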